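import Pool.Agent.helper77.BND.Top2

/-!
# MP_376aaf_an: the complete range of the `K₀`-part of the invariant of the crossed products `C(X) ⋊ ℤ`

Definitions used from other files:
* `Pool/Agent/helper37/CZ/Defs.lean`: `IsMinimal`, `IsCrossedProduct`, `IdemMat`, `K0Rel`, `K0`, `cls`, `unitCls`,
  `TracialState`, `pair`;
* `Pool/Agent/helper77/PV/Defs.lean`: `InvMat`, `dsum`, `Htp`, `K1Rel`, `K1`, `IsAff`, `IsSimplex`;
* `Pool/Agent/helper53/PV/DefsF.lean`: `SmallBdry`;
* `Pool/Agent/helper77/PV/SpecK.lean`: `HasInv`.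
-/

set_option autoImplicit false

namespace Pool.Agent.Results.MP_376aaf_an.K0Range

open Pool.Agent.CZ Pool.Agent.PV

/-- `(G₀, g, G₁, K, ρ)` is the invariant of the crossed product of `C(X)` by a minimal homeomorphism of an
infinite compact metrizable space `X`. -/
def Occurs {G₀ : Type} [AddCommGroup G₀] (g : G₀) (G₁ : Type) [AddCommGroup G₁] {E : Type} [AddCommGroup E]
    [Module ℝ E] [TopologicalSpace E] (K : Set E) (ρ : G₀ →+ C(K, ℝ)) : Prop :=
  ∃ (X : Type) (_ : TopologicalSpace X) (_ : CompactSpace X) (_ : TopologicalSpace.MetrizableSpace X)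
    (_ : Infinite X) (α : X ≃ₜ X), IsMinimal α ∧
    ∃ (A : Type) (_ : CStarAlgebra A) (ι : C(X, ℂ) →⋆ₐ[ℂ] A) (u : unitary A),
      IsCrossedProduct α ι u ∧ HasInv A g G₁ K ρ

/-- The same, with a minimal homeomorphism that has the small boundary property. -/
def OccursSBP {G₀ : Type} [AddCommGroup G₀] (g : G₀) (G₁ : Type) [AddCommGroup G₁] {E : Type}
    [AddCommGroup E] [Module ℝ E] [TopologicalSpace E] (K : Set E) (ρ : G₀ →+ C(K, ℝ)) : Prop :=
  ∃ (X : Type) (_ : TopologicalSpace X) (_ : CompactSpace X) (_ : TopologicalSpace.MetrizableSpace X)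
    (_ : Infinite X) (α : X ≃ₜ X), IsMinimal α ∧ SmallBdry α ∧
    ∃ (A : Type) (_ : CStarAlgebra A) (ι : C(X, ℂ) →⋆ₐ[ℂ] A) (u : unitary A),
      IsCrossedProduct α ι u ∧ HasInv A g G₁ K ρ

/-- `G₀ = H ⊕ S` with `H` torsion free, `g ∈ H`, `ρ(S) = 0`. -/
def K0Cond {G₀ : Type} [AddCommGroup G₀] (g : G₀) {E : Type} [TopologicalSpace E] (K : Set E)
    (ρ : G₀ →+ C(K, ℝ)) : Prop :=
  ∃ H S : AddSubgroup G₀, IsCompl H S ∧ g ∈ H ∧
    (∀ (n : ℕ) (x : G₀), n ≠ 0 → x ∈ H → n • x = 0 → x = 0) ∧ ∀ x ∈ S, ρ x = 0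

/-- Let `K` be a metrizable Choquet simplex (a nonempty compact convex metrizable subset of a Hausdorff locally
convex space whose continuous affine functions have the Riesz interpolation property), `G₀` a countable abelian
group, `g ∈ G₀`, and `ρ : G₀ → Aff(K)` any homomorphism with `ρ(g) = 1`. The following are equivalent: (a) for some
`G₁`, `(G₀, g, G₁, K, ρ)` is the invariant of the crossed product `C(X) ⋊ ℤ` for some minimal homeomorphism of an
infinite compact metrizable space; (b) the same, with a minimal homeomorphism that has the small boundary property;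
(c) `G₀ = H ⊕ S` with `H` torsion free, `g ∈ H`, `ρ(S) = 0`. In this case there is one group `J` such that for every
countable abelian group `G'` the tuple `(G₀, g, J ⊕ G', K, ρ)` is such an invariant, with the small boundary
property. -/
theorem result (E : Type) [AddCommGroup E] [Module ℝ E] [TopologicalSpace E] [IsTopologicalAddGroup E]
    [ContinuousSMul ℝ E] [LocallyConvexSpace ℝ E] [T2Space E] (K : Set E) [TopologicalSpace.MetrizableSpace K]
    (hK : IsCompact K) (hc : Convex ℝ K) (hn : K.Nonempty) (hs : IsSimplex K) (G₀ : Type) [AddCommGroup G₀]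
    [Countable G₀] (g : G₀) (ρ : G₀ →+ C(K, ℝ)) (ha : ∀ x, IsAff (ρ x)) (h1 : ρ g = 1) :
    ((∃ (G₁ : Type) (_ : AddCommGroup G₁), Occurs g G₁ K ρ) ↔ K0Cond g K ρ) ∧
    ((∃ (G₁ : Type) (_ : AddCommGroup G₁), OccursSBP g G₁ K ρ) ↔ K0Cond g K ρ) ∧
    (K0Cond g K ρ → ∃ (J : Type) (_ : AddCommGroup J), ∀ (G' : Type) [AddCommGroup G'] [Countable G'],
      OccursSBP g (J × G') K ρ) :=
  Pool.Agent.BND.T_K0Range E K hK hc hn hs G₀ g ρ ha h1

end Pool.Agent.Results.MP_376aaf_an.K0Range
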