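import Pool.Agent.helper77.BND.Top2

/-!
# MP_376aaf_an: the crossed products `C(X) ⋊ ℤ` with `K₀ = H ⊕ S`, `H` of rank one, and arbitrary traces

Definitions used from other files:
* `Pool/Agent/helper37/CZ/Defs.lean`: `IsMinimal`, `IsCrossedProduct`, `IdemMat`, `K0Rel`, `K0`, `cls`, `unitCls`,
  `TracialState`, `pair`;
* `Pool/Agent/helper77/PV/Defs.lean`: `InvMat`, `dsum`, `Htp`, `K1Rel`, `K1`, `IsAff`, `IsSimplex`;
* `Pool/Agent/helper53/PV/DefsF.lean`: `SmallBdry`;
* `Pool/Agent/helper77/PV/SpecK.lean`: `HasInv`.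
-/

set_option autoImplicit false

namespace Pool.Agent.Results.MP_376aaf_an.RankOneRange

open Pool.Agent.CZ Pool.Agent.PV

/-- `(G₀, g, G₁, K, ρ)` is the invariant of the crossed product of `C(X)` by a minimal homeomorphism of an
infinite compact metrizable space `X`. -/
def Occurs {G₀ : Type} [AddCommGroup G₀] (g : G₀) (G₁ : Type) [AddCommGroup G₁] {E : Type} [AddCommGroup E]
    [Module ℝ E] [TopologicalSpace E] (K : Set E) (ρ : G₀ →+ C(K, ℝ)) : Prop :=
  ∃ (X : Type) (_ : TopologicalSpace X) (_ : CompactSpace X) (_ : TopologicalSpace.MetrizableSpace X)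
    (_ : Infinite X) (α : X ≃ₜ X), IsMinimal α ∧
    ∃ (A : Type) (_ : CStarAlgebra A) (ι : C(X, ℂ) →⋆ₐ[ℂ] A) (u : unitary A),
      IsCrossedProduct α ι u ∧ HasInv A g G₁ K ρ

/-- The same, with a minimal homeomorphism that has the small boundary property. -/
def OccursSBP {G₀ : Type} [AddCommGroup G₀] (g : G₀) (G₁ : Type) [AddCommGroup G₁] {E : Type}
    [AddCommGroup E] [Module ℝ E] [TopologicalSpace E] (K : Set E) (ρ : G₀ →+ C(K, ℝ)) : Prop :=
  ∃ (X : Type) (_ : TopologicalSpace X) (_ : CompactSpace X) (_ : TopologicalSpace.MetrizableSpace X)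
    (_ : Infinite X) (α : X ≃ₜ X), IsMinimal α ∧ SmallBdry α ∧
    ∃ (A : Type) (_ : CStarAlgebra A) (ι : C(X, ℂ) →⋆ₐ[ℂ] A) (u : unitary A),
      IsCrossedProduct α ι u ∧ HasInv A g G₁ K ρ

/-- The homomorphism `H ⊕ S → Aff(K)`, `(h, s) ↦` the constant function `h`, for a subgroup `H` of `ℚ`. -/
noncomputable def constPair (H : AddSubgroup ℚ) (S : Type) [AddCommGroup S] {E : Type} [TopologicalSpace E]
    (K : Set E) : H × S →+ C(K, ℝ) where
  toFun x := ContinuousMap.const K (((x.1 : ℚ) : ℝ))
  map_zero' := by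
    ext t
    simp
  map_add' x y := by
    ext t
    simp

/-- Let `K` be a metrizable Choquet simplex (a nonempty compact convex metrizable subset of a Hausdorff locally
convex space whose continuous affine functions have the Riesz interpolation property), `H` a subgroup of `ℚ` with
`1 ∈ H`, and `S`, `G₁` countable abelian groups. The following are equivalent: (a) `(H ⊕ S, (1, 0), G₁, K, (h, s) ↦ h)`
is the invariant of the crossed product `C(X) ⋊ ℤ` for some minimal homeomorphism of an infinite compact metrizable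
space; (b) the same, with a minimal homeomorphism that has the small boundary property; (c) `G₁` is isomorphic to
`ℤ ⊕ G'` for some group `G'`. -/
theorem result (E : Type) [AddCommGroup E] [Module ℝ E] [TopologicalSpace E] [IsTopologicalAddGroup E]
    [ContinuousSMul ℝ E] [LocallyConvexSpace ℝ E] [T2Space E] (K : Set E) [TopologicalSpace.MetrizableSpace K]
    (hK : IsCompact K) (hc : Convex ℝ K) (hn : K.Nonempty) (hs : IsSimplex K) (H : AddSubgroup ℚ) (h1 : 1 ∈ H)
    (S G₁ : Type) [AddCommGroup S] [Countable S] [AddCommGroup G₁] [Countable G₁] :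
    (Occurs ((⟨1, h1⟩ : H), (0 : S)) G₁ K (constPair H S K) ↔
      ∃ (G' : Type) (_ : AddCommGroup G'), Nonempty (G₁ ≃+ ℤ × G')) ∧
    (OccursSBP ((⟨1, h1⟩ : H), (0 : S)) G₁ K (constPair H S K) ↔
      ∃ (G' : Type) (_ : AddCommGroup G'), Nonempty (G₁ ≃+ ℤ × G')) := by
  have hA : Occurs ((⟨1, h1⟩ : H), (0 : S)) G₁ K (constPair H S K) →
      ∃ (G' : Type) (_ : AddCommGroup G'), Nonempty (G₁ ≃+ ℤ × G') := fun h =>
    (Pool.Agent.BND.Fin_nec Pool.Agent.PV.T_KNE h).1
  have hC : OccursSBP ((⟨1, h1⟩ : H), (0 : S)) G₁ K (constPair H S K) →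
      Occurs ((⟨1, h1⟩ : H), (0 : S)) G₁ K (constPair H S K) := by
    rintro ⟨X, j1, j2, j3, j4, α, hα, hb, A, j5, ι, u, hx, hI⟩
    exact ⟨X, j1, j2, j3, j4, α, hα, A, j5, ι, u, hx, hI⟩
  have hB : (∃ (G' : Type) (_ : AddCommGroup G'), Nonempty (G₁ ≃+ ℤ × G')) →
      OccursSBP ((⟨1, h1⟩ : H), (0 : S)) G₁ K (constPair H S K) := by
    rintro ⟨G', i, ⟨f⟩⟩
    have hG : Countable G' := by
      refine Function.Injective.countable (f := fun x : G' => f.symm ((0 : ℤ), x)) ?_
      intro x y hxy
      have h := f.symm.injective hxy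
      exact congrArg Prod.snd h
    have hcp : IsCompl (AddSubgroup.prod (⊤ : AddSubgroup H) (⊥ : AddSubgroup S))
        (AddSubgroup.prod (⊥ : AddSubgroup H) (⊤ : AddSubgroup S)) := by
      constructor
      · rw [AddSubgroup.disjoint_def]
        rintro ⟨a, b⟩ h2 h3
        rw [AddSubgroup.mem_prod] at h2 h3
        have h4 : b = 0 := by simpa using h2.2
        have h5 : a = 0 := by simpa using h3.1
        rw [h4, h5]
        rfl
      · rw [codisjoint_iff, eq_top_iff]
        rintro ⟨a, b⟩ _
        have h2 : ((a, b) : H × S) = (a, 0) + (0, b) := by simp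
        rw [h2]
        refine AddSubgroup.add_mem_sup ?_ ?_
        · rw [AddSubgroup.mem_prod]; simp
        · rw [AddSubgroup.mem_prod]; simp
    obtain ⟨X, j1, j2, j3, j4, α, hα, hb, A, j5, ι, u, hx, φ, e, τ, h2, h3, h4, h5⟩ :=
      (Pool.Agent.BND.T_RankOne E K hK hc hn hs (H × S) ((⟨1, h1⟩ : H), (0 : S)) (constPair H S K)
        (by
          intro x
          constructor
          intro a b c s t _ _ hst _
          simp only [constPair, AddMonoidHom.coe_mk, ZeroHom.coe_mk, ContinuousMap.const_apply]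
          rw [← add_mul, hst, one_mul]) (by
          ext t
          simp [constPair])).1
        (AddSubgroup.prod ⊤ ⊥) (AddSubgroup.prod ⊥ ⊤) hcp (by rw [AddSubgroup.mem_prod]; simp)
        (by
          rintro n ⟨a, b⟩ hn2 hx h6
          rw [AddSubgroup.mem_prod] at hx
          have h7 : b = 0 := by simpa using hx.2
          have h8 : n • a = 0 := congrArg Prod.fst h6
          have h9 : a = 0 := by
            have h10 : (n : ℚ) * (a : ℚ) = 0 := by
              have := congrArg (fun y : H => (y : ℚ)) h8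
              simpa using this
            rcases mul_eq_zero.mp h10 with h11 | h11
            · exact absurd (by exact_mod_cast h11) hn2
            · exact Subtype.ext h11
          rw [h7, h9]
          rfl)
        (by
          rintro ⟨⟨p, a⟩, hp⟩ ⟨⟨q, b⟩, hq⟩
          rw [AddSubgroup.mem_prod] at hp hq
          have ha : a = 0 := by simpa using hp.2
          have hb : b = 0 := by simpa using hq.2
          subst ha hb
          by_cases hq0 : (q : ℚ) = 0
          · refine ⟨0, 1, Or.inr one_ne_zero, ?_⟩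
            apply Subtype.ext
            have h6 : q = 0 := Subtype.ext hq0
            simp [h6]
            rfl
          · refine ⟨(q : ℚ).num * (p : ℚ).den, (p : ℚ).num * (q : ℚ).den, Or.inl ?_, ?_⟩
            · exact mul_ne_zero (Rat.num_ne_zero.mpr hq0) (by exact_mod_cast (p : ℚ).den_nz)
            · apply Subtype.ext
              apply Prod.ext
              · apply Subtype.ext
                have h6 : (((q : ℚ).num * (p : ℚ).den : ℤ) : ℚ) * (p : ℚ) = (((p : ℚ).num * (q : ℚ).den : ℤ) : ℚ) * (q : ℚ) := by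
                  push_cast
                  have h7 := Rat.mul_den_eq_num (p : ℚ)
                  have h8 := Rat.mul_den_eq_num (q : ℚ)
                  calc ((q : ℚ).num : ℚ) * ((p : ℚ).den : ℚ) * (p : ℚ) = ((q : ℚ).num : ℚ) * ((p : ℚ) * ((p : ℚ).den : ℚ)) := by ring
                    _ = ((p : ℚ).num : ℚ) * ((q : ℚ) * ((q : ℚ).den : ℚ)) := by rw [h7, h8]; ring
                    _ = ((p : ℚ).num : ℚ) * ((q : ℚ).den : ℚ) * (q : ℚ) := by ring
                simpa [zsmul_eq_mul] using h6
              · simp)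
        (by
          rintro ⟨a, b⟩ hx
          rw [AddSubgroup.mem_prod] at hx
          have h6 : a = 0 := by simpa using hx.1
          ext t
          simp [constPair, h6]) G'
    exact ⟨X, j1, j2, j3, j4, α, hα, hb, A, j5, ι, u, hx, φ, e.trans f.symm, τ, h2, h3, h4, h5⟩
  exact ⟨⟨hA, fun h => hC (hB h)⟩, ⟨fun h => hA (hC h), hB⟩⟩

end Pool.Agent.Results.MP_376aaf_an.RankOneRange
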