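import Pool.Agent.helper77.PV.Top

/-!
# MP_376aaf_an: the invariants of the crossed products `C(X) ⋊ ℤ` of real rank zero

Definitions used from other files:
* `Pool/Agent/helper37/CZ/Defs.lean`: `IsMinimal`, `IsCrossedProduct`, `IdemMat`, `K0Rel`, `K0`, `cls`, `unitCls`,
  `TracialState`, `pair`;
* `Pool/Agent/helper77/PV/Defs.lean`: `InvMat`, `dsum`, `Htp`, `K1Rel`, `K1`, `IsAff`, `IsSimplex`;
* `Pool/Agent/helper53/PV/DefsF.lean`: `SmallBdry`;
* `Pool/Agent/helper77/PV/SpecK.lean`: `HasInv`.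
-/

set_option autoImplicit false

namespace Pool.Agent.Results.MP_376aaf_an.RealRankZeroRange

open Pool.Agent.CZ Pool.Agent.PV

/-- `(G₀, g, G₁, K, ρ)` is the invariant of the crossed product of `C(X)` by a minimal homeomorphism of an
infinite compact metrizable space `X`. -/
def Occurs {G₀ : Type} [AddCommGroup G₀] (g : G₀) (G₁ : Type) [AddCommGroup G₁] {E : Type} [AddCommGroup E]
    [Module ℝ E] [TopologicalSpace E] (K : Set E) (ρ : G₀ →+ C(K, ℝ)) : Prop :=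
  ∃ (X : Type) (_ : TopologicalSpace X) (_ : CompactSpace X) (_ : TopologicalSpace.MetrizableSpace X)
    (_ : Infinite X) (α : X ≃ₜ X), IsMinimal α ∧
    ∃ (A : Type) (_ : CStarAlgebra A) (ι : C(X, ℂ) →⋆ₐ[ℂ] A) (u : unitary A),
      IsCrossedProduct α ι u ∧ HasInv A g G₁ K ρ

/-- The same, with a minimal homeomorphism that has the small boundary property. -/
def OccursSBP {G₀ : Type} [AddCommGroup G₀] (g : G₀) (G₁ : Type) [AddCommGroup G₁] {E : Type}
    [AddCommGroup E] [Module ℝ E] [TopologicalSpace E] (K : Set E) (ρ : G₀ →+ C(K, ℝ)) : Prop :=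
  ∃ (X : Type) (_ : TopologicalSpace X) (_ : CompactSpace X) (_ : TopologicalSpace.MetrizableSpace X)
    (_ : Infinite X) (α : X ≃ₜ X), IsMinimal α ∧ SmallBdry α ∧
    ∃ (A : Type) (_ : CStarAlgebra A) (ι : C(X, ℂ) →⋆ₐ[ℂ] A) (u : unitary A),
      IsCrossedProduct α ι u ∧ HasInv A g G₁ K ρ

/-- `G₁ ≅ ℤ ⊕ G'` for some `G'`, and `G₀ = H ⊕ S` with `H` torsion free, `g ∈ H`, `ρ(S) = 0`. -/
def RangeCond {G₀ : Type} [AddCommGroup G₀] (g : G₀) (G₁ : Type) [AddCommGroup G₁] {E : Type}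
    [TopologicalSpace E] (K : Set E) (ρ : G₀ →+ C(K, ℝ)) : Prop :=
  (∃ (G' : Type) (_ : AddCommGroup G'), Nonempty (G₁ ≃+ ℤ × G')) ∧
  ∃ H S : AddSubgroup G₀, IsCompl H S ∧ g ∈ H ∧
    (∀ (n : ℕ) (x : G₀), n ≠ 0 → x ∈ H → n • x = 0 → x = 0) ∧ ∀ x ∈ S, ρ x = 0

/-- Let `K` be a Choquet simplex (a nonempty compact convex subset of a Hausdorff locally convex space whose
continuous affine functions have the Riesz interpolation property), `G₀`, `G₁` countable abelian groups,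
`g ∈ G₀`, and `ρ : G₀ → Aff(K)` a homomorphism with dense range and `ρ(g) = 1`. The following are equivalent:
(a) `(G₀, g, G₁, K, ρ)` is the invariant of the crossed product `C(X) ⋊ ℤ` for some minimal homeomorphism of an
infinite compact metrizable space; (b) the same, with a minimal homeomorphism that has the small boundary
property; (c) `G₁ ≅ ℤ ⊕ G'` for some `G'`, and `G₀ = H ⊕ S` with `H` torsion free, `g ∈ H`, `ρ(S) = 0`. -/
theorem result (E : Type) [AddCommGroup E] [Module ℝ E] [TopologicalSpace E] [IsTopologicalAddGroup E]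
    [ContinuousSMul ℝ E] [LocallyConvexSpace ℝ E] [T2Space E] (K : Set E) (hK : IsCompact K)
    (hc : Convex ℝ K) (hn : K.Nonempty) (hs : IsSimplex K) (G₀ G₁ : Type) [AddCommGroup G₀]
    [AddCommGroup G₁] [Countable G₀] [Countable G₁] (g : G₀) (ρ : G₀ →+ C(K, ℝ)) (ha : ∀ x, IsAff (ρ x))
    (h1 : ρ g = 1) (hd : ∀ a : C(K, ℝ), IsAff a → ∀ ε : ℝ, 0 < ε → ∃ x, ∀ t, |ρ x t - a t| < ε) :
    (Occurs g G₁ K ρ ↔ RangeCond g G₁ K ρ) ∧ (OccursSBP g G₁ K ρ ↔ RangeCond g G₁ K ρ) := by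
  have hA : Occurs g G₁ K ρ → RangeCond g G₁ K ρ := by
    rintro ⟨X, i1, i2, i3, i4, α, hα, A, i5, ι, u, hcp, hI⟩
    exact T_KNE X α hα A ι u hcp G₀ g G₁ E K ρ hI
  have hB : RangeCond g G₁ K ρ → OccursSBP g G₁ K ρ := by
    rintro ⟨⟨G', i, ⟨f⟩⟩, H, S, hcp, hg, htf, hS⟩
    have hG : Countable G' := by
      refine Function.Injective.countable (f := fun x : G' => f.symm ((0 : ℤ), x)) ?_
      intro x y hxy
      have h := f.symm.injective hxy
      exact congrArg Prod.snd h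
    obtain ⟨X, j1, j2, j3, j4, α, hα, hb, A, j5, ι, u, hx, hI⟩ :=
      T_KSU E K hs G₀ g ρ ⟨hK, hc, hn, ha, hd, h1⟩ G' H S hcp hg htf hS
    refine ⟨X, j1, j2, j3, j4, α, hα, hb, A, j5, ι, u, hx, ?_⟩
    exact T_KHI A G₀ g (ℤ × G') E K ρ hI G₀ G₁ (AddEquiv.refl G₀) f.symm ρ fun x => rfl
  have hC : OccursSBP g G₁ K ρ → Occurs g G₁ K ρ := by
    rintro ⟨X, j1, j2, j3, j4, α, hα, hb, A, j5, ι, u, hx, hI⟩
    exact ⟨X, j1, j2, j3, j4, α, hα, A, j5, ι, u, hx, hI⟩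
  exact ⟨⟨hA, fun h => hC (hB h)⟩, ⟨fun h => hA (hC h), hB⟩⟩

end Pool.Agent.Results.MP_376aaf_an.RealRankZeroRange
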