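import Pool.Agent.helper77.PV.Top2

/-!
# MP_376aaf_an: the range of the invariant is closed under adding arbitrary countable abelian groups

Definitions used from other files:
* `Pool/Agent/helper37/CZ/Defs.lean`: `IsMinimal`, `IsCrossedProduct`, `IdemMat`, `K0Rel`, `K0`, `cls`, `unitCls`,
  `TracialState`, `pair`;
* `Pool/Agent/helper77/PV/Defs.lean`: `InvMat`, `dsum`, `Htp`, `K1Rel`, `K1`, `IsAff`;
* `Pool/Agent/helper53/PV/DefsF.lean`: `SmallBdry`;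
* `Pool/Agent/helper77/PV/SpecK.lean`: `HasInv`.
-/

set_option autoImplicit false

namespace Pool.Agent.Results.MP_376aaf_an.StableRange

open Pool.Agent.CZ Pool.Agent.PV

/-- Let `α₀` be a minimal homeomorphism of an infinite compact metrizable space `X₀`, `A₀ = C(X₀) ⋊ ℤ`, and let `S₀`,
`S₁` be arbitrary countable abelian groups. There is an almost one-to-one extension `π : (X, α) → (X₀, α₀)`, `α`
minimal, `X` compact metrizable, with the small boundary property if `α₀` has it, such that for `A = C(X) ⋊ ℤ`: if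
`(G₀, g, G₁, K, ρ)` is the invariant of `A₀`, then `(G₀ ⊕ S₀, (g, 0), G₁ ⊕ S₁, K, ρ ∘ pr)` is the invariant of `A`;
and the restriction of tracial states along the homomorphism `Φ : A₀ → A` given by `π` is a bijection. -/
theorem result (X₀ : Type) [TopologicalSpace X₀] [CompactSpace X₀] [TopologicalSpace.MetrizableSpace X₀]
    [Infinite X₀] (α₀ : X₀ ≃ₜ X₀) (hα₀ : IsMinimal α₀) (A₀ : Type) [CStarAlgebra A₀] (ι₀ : C(X₀, ℂ) →⋆ₐ[ℂ] A₀)
    (u₀ : unitary A₀) (h₀ : IsCrossedProduct α₀ ι₀ u₀) (S₀ S₁ : Type) [AddCommGroup S₀] [Countable S₀]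
    [AddCommGroup S₁] [Countable S₁] :
    ∃ (X : Type) (_ : TopologicalSpace X) (_ : CompactSpace X) (_ : TopologicalSpace.MetrizableSpace X)
      (_ : Infinite X) (α : X ≃ₜ X) (π : C(X, X₀)), IsMinimal α ∧ (SmallBdry α₀ → SmallBdry α) ∧
      Function.Surjective π ∧ (∀ x, π (α x) = α₀ (π x)) ∧ (∃ x : X₀, ∀ p q : X, π p = x → π q = x → p = q) ∧
      ∃ (A : Type) (_ : CStarAlgebra A) (ι : C(X, ℂ) →⋆ₐ[ℂ] A) (u : unitary A), IsCrossedProduct α ι u ∧
      (∃ Φ : A₀ →⋆ₐ[ℂ] A, (∀ f, Φ (ι₀ f) = ι (f.comp π)) ∧ Φ (u₀ : A₀) = u ∧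
        (∀ t₀ : TracialState A₀, ∃ t : TracialState A, ∀ a, t.τ (Φ a) = t₀.τ a) ∧
        ∀ t t' : TracialState A, (∀ a, t.τ (Φ a) = t'.τ (Φ a)) → t = t') ∧
      ∀ (G₀ : Type) [AddCommGroup G₀] (g : G₀) (G₁ : Type) [AddCommGroup G₁] (E : Type) [AddCommGroup E]
        [Module ℝ E] [TopologicalSpace E] (K : Set E) (ρ : G₀ →+ C(K, ℝ)), HasInv A₀ g G₁ K ρ →
        HasInv A ((g, 0) : G₀ × S₀) (G₁ × S₁) K (ρ.comp (AddMonoidHom.fst G₀ S₀)) :=
  T_KSC X₀ α₀ hα₀ A₀ ι₀ u₀ h₀ S₀ S₁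

end Pool.Agent.Results.MP_376aaf_an.StableRange
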